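import Mathlib

set_option autoImplicit false
set_option linter.unusedSectionVars false

namespace Pool.Agent.Results.MP_10f18b_co.RatioTwoTwo

open Finset Classical

/-- `S` is `k`-independent in `G`: every vertex of `S` has at most `k` neighbours in `S`. -/
def KIndep {n : ℕ} (k : ℕ) (G : SimpleGraph (Fin n)) (S : Finset (Fin n)) : Prop :=
  ∀ v ∈ S, #{w ∈ S | G.Adj v w} ≤ k

/-- The `k`-independence number: the largest size of a `k`-independent set. -/
noncomputable def alpha {n : ℕ} (k : ℕ) (G : SimpleGraph (Fin n)) : ℕ :=
  ({S : Finset (Fin n) | KIndep k G S} : Finset _).sup card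

/-- The average degree. -/
noncomputable def avgDeg {n : ℕ} (G : SimpleGraph (Fin n)) : ℝ :=
  (∑ v, (G.degree v : ℝ)) / n

/-- `f(k, d)`: the infimum of `α_k(G) / n(G)` over all graphs `G` with at least one vertex and
average degree at most `d`. -/
noncomputable def f (k d : ℕ) : ℝ :=
  sInf {x : ℝ | ∃ n : ℕ, 1 ≤ n ∧ ∃ G : SimpleGraph (Fin n), avgDeg G ≤ d ∧
    x = (alpha k G : ℝ) / n}

section main

variable {V : Type} [Fintype V]

/-- Number of neighbours of `x` outside `D`. -/
noncomputable def r (G : SimpleGraph V) (D : Finset V) (x : V) : ℕ := #{w | G.Adj x w ∧ w ∉ D}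

/-- After deleting `D` the maximum degree is at most two. -/
def Good (G : SimpleGraph V) (D : Finset V) : Prop := ∀ v ∉ D, r G D v ≤ 2

/-- Delete `D`, then drop the edges between vertices of degree at most two. -/
def red (G : SimpleGraph V) (D : Finset V) : SimpleGraph V where
  Adj x y := G.Adj x y ∧ x ∉ D ∧ y ∉ D ∧ (3 ≤ r G D x ∨ 3 ≤ r G D y)
  symm := ⟨fun _ _ h => ⟨h.1.symm, h.2.2.1, h.2.1, h.2.2.2.symm⟩⟩
  loopless := ⟨fun _ h => h.1.ne rfl⟩

/-- The non-isolated vertices. -/
noncomputable def act (G : SimpleGraph V) : Finset V := {v | ∃ w, G.Adj v w}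

/-- The bound. -/
def P (G : SimpleGraph V) : Prop :=
  ∃ D : Finset V, Good G D ∧ 22 * #D ≤ 6 * #G.edgeFinset + #(act G)

variable (G : SimpleGraph V)

theorem good_union (D0 D' : Finset V) (h : Good (red G D0) D') : Good G (D0 ∪ D') := by
  intro v hv
  rw [mem_union, not_or] at hv
  by_contra hcon
  push Not at hcon
  have h1 : r G (D0 ∪ D') v ≤ r G D0 v := by
    unfold r
    apply card_le_card
    intro w hw
    simp only [mem_filter, mem_univ, true_and, mem_union, not_or] at hw ⊢
    exact ⟨hw.1, hw.2.1⟩
  have h2 : r G (D0 ∪ D') v ≤ r (red G D0) D' v := by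
    unfold r
    apply card_le_card
    intro w hw
    simp only [mem_filter, mem_univ, true_and, mem_union, not_or] at hw ⊢
    exact ⟨⟨hw.1, hv.1, hw.2.1, Or.inl (by omega)⟩, hw.2.2⟩
  have h3 := h v hv.2
  omega

theorem red_le (D : Finset V) : red G D ≤ G := fun _ _ h => h.1

/-- Reduction step in a minimal counterexample. -/
theorem step (hmin : ∀ G' : SimpleGraph V, #G'.edgeFinset < #G.edgeFinset → P G') (hG : ¬ P G)
    (D0 : Finset V) (X : Finset (Sym2 V)) (Y : Finset V)
    (hX : ∀ e ∈ X, e ∈ G.edgeFinset ∧ e ∉ (red G D0).edgeFinset) (hne : 0 < #X)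
    (hY : ∀ v ∈ Y, v ∈ act G ∧ v ∉ act (red G D0)) : 6 * #X + #Y < 22 * #D0 := by
  by_contra hcon
  push Not at hcon
  have h1 : #(red G D0).edgeFinset + #X ≤ #G.edgeFinset := by
    rw [← card_union_of_disjoint]
    · apply card_le_card
      intro e he
      rw [mem_union] at he
      rcases he with he | he
      · exact SimpleGraph.edgeFinset_mono (red_le G D0) he
      · exact (hX e he).1
    · rw [disjoint_left]
      intro e he he'
      exact (hX e he').2 he
  have h2 : #(act (red G D0)) + #Y ≤ #(act G) := by
    rw [← card_union_of_disjoint]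
    · apply card_le_card
      intro v hv
      rw [mem_union] at hv
      rcases hv with hv | hv
      · unfold act at hv ⊢
        rw [mem_filter] at hv ⊢
        obtain ⟨-, w, hw⟩ := hv
        exact ⟨mem_univ _, w, hw.1⟩
      · exact (hY v hv).1
    · rw [disjoint_left]
      intro e he he'
      exact (hY e he').2 he
  obtain ⟨D', hD', hcard⟩ := hmin (red G D0) (by omega)
  apply hG
  refine ⟨D0 ∪ D', good_union G D0 D' hD', ?_⟩
  have := card_union_le D0 D'
  omega

variable {G}

theorem r_add (D : Finset V) (x : V) : r G D x + #{z ∈ D | G.Adj x z} = G.degree x := by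
  rw [← G.card_neighborFinset_eq_degree]
  unfold r
  rw [← card_union_of_disjoint]
  · congr 1
    ext w
    simp only [mem_union, mem_filter, mem_univ, true_and, SimpleGraph.mem_neighborFinset]
    tauto
  · rw [disjoint_left]
    intro w hw hw'
    simp only [mem_filter, mem_univ, true_and] at hw hw'
    exact hw.2 hw'.1

theorem r_le (D : Finset V) (x : V) : r G D x ≤ G.degree x := by
  have := r_add (G := G) D x
  omega

theorem r_lt {D : Finset V} {x z : V} (hz : z ∈ D) (h : G.Adj x z) : r G D x < G.degree x := by
  have h1 := r_add (G := G) D x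
  have h2 : 0 < #{z ∈ D | G.Adj x z} := card_pos.mpr ⟨z, mem_filter.mpr ⟨hz, h⟩⟩
  omega

theorem notMem_red {D : Finset V} {x y : V}
    (h : x ∈ D ∨ y ∈ D ∨ (r G D x ≤ 2 ∧ r G D y ≤ 2)) : s(x, y) ∉ (red G D).edgeFinset := by
  rw [SimpleGraph.mem_edgeFinset, SimpleGraph.mem_edgeSet]
  rintro ⟨-, h1, h2, h3⟩
  rcases h with h | h | ⟨h, h'⟩
  · exact h1 h
  · exact h2 h
  · omega

theorem inc_mem {v : V} {e : Sym2 V} (he : e ∈ G.incidenceFinset v) :
    ∃ w, e = s(v, w) ∧ G.Adj v w := by
  rw [SimpleGraph.mem_incidenceFinset] at he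
  obtain ⟨h1, h2⟩ := he
  obtain ⟨w, rfl⟩ := Sym2.mem_iff_exists.mp h2
  exact ⟨w, rfl, h1⟩

theorem mem_act {v w : V} (h : G.Adj v w) : v ∈ act G := mem_filter.mpr ⟨mem_univ _, w, h⟩

theorem notMem_act_red {D : Finset V} {v : V} (hv : v ∈ D) : v ∉ act (red G D) := by
  unfold act
  rw [mem_filter]
  rintro ⟨-, w, hw⟩
  exact hw.2.1 hv

theorem card_inc (v : V) : #(G.incidenceFinset v) = G.degree v :=
  G.card_incidenceFinset_eq_degree v

theorem inc_inter {v w : V} (hvw : v ≠ w) :
    G.incidenceFinset v ∩ G.incidenceFinset w ⊆ {s(v, w)} := by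
  intro e he
  rw [mem_inter] at he
  obtain ⟨x, rfl, hx⟩ := inc_mem he.1
  obtain ⟨y, hy, -⟩ := inc_mem he.2
  rw [Sym2.eq_iff] at hy
  rw [mem_singleton]
  rcases hy with ⟨h1, -⟩ | ⟨h1, h2⟩
  · exact absurd h1 hvw
  · rw [h2]

/-- The bound holds for every graph. -/
theorem main (m : ℕ) : ∀ G : SimpleGraph V, #G.edgeFinset = m → P G := by
  induction m using Nat.strong_induction_on with
  | _ m ih =>
  intro G hm
  by_contra hG
  have hmin : ∀ G' : SimpleGraph V, #G'.edgeFinset < #G.edgeFinset → P G' :=
    fun G' h => ih _ (by omega) G' rfl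
  have st := step G hmin hG
  -- a general single-vertex deletion
  have hY1 : ∀ v : V, 0 < G.degree v → ∀ u ∈ ({v} : Finset V),
      u ∈ act G ∧ u ∉ act (red G {v}) := by
    intro v hv u hu
    rw [mem_singleton] at hu
    subst hu
    rw [← G.card_neighborFinset_eq_degree, card_pos] at hv
    obtain ⟨w, hw⟩ := hv
    rw [SimpleGraph.mem_neighborFinset] at hw
    exact ⟨mem_act hw, notMem_act_red (mem_singleton_self _)⟩
  have hinc : ∀ (D : Finset V) (v : V), v ∈ D → ∀ e ∈ G.incidenceFinset v,
      e ∈ G.edgeFinset ∧ e ∉ (red G D).edgeFinset := by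
    intro D v hv e he
    obtain ⟨w, rfl, hw⟩ := inc_mem he
    exact ⟨by rwa [SimpleGraph.mem_edgeFinset, SimpleGraph.mem_edgeSet],
      notMem_red (Or.inl hv)⟩
  -- (a) no edges between vertices of degree at most two
  have ha : ∀ x y, G.Adj x y → G.degree x ≤ 2 → 3 ≤ G.degree y := by
    intro x y hxy hx
    by_contra hy
    push Not at hy
    have := st ∅ {s(x, y)} ∅ (by
      intro e he
      rw [mem_singleton] at he
      subst he
      refine ⟨by rwa [SimpleGraph.mem_edgeFinset, SimpleGraph.mem_edgeSet], notMem_red ?_⟩
      refine Or.inr (Or.inr ⟨(r_le _ _).trans hx, (r_le _ _).trans (by omega)⟩)) (by simp)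
      (by simp)
    simp at this
  -- (b) maximum degree at most three
  have hb : ∀ v, G.degree v ≤ 3 := by
    intro v
    by_contra hv
    push Not at hv
    have := st {v} (G.incidenceFinset v) {v} (hinc _ v (mem_singleton_self _))
      (by rw [card_inc]; omega) (hY1 v (by omega))
    rw [card_inc, card_singleton] at this
    omega
  -- (c) deleting a vertex of degree three creates no droppable edge
  have hc : ∀ v x y, G.degree v = 3 → G.Adj x y → x ≠ v → y ≠ v → r G {v} x ≤ 2 →
      r G {v} y ≤ 2 → False := by
    intro v x y hv hxy hxv hyv hx hy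
    have := st {v} (insert s(x, y) (G.incidenceFinset v)) {v} (by
      intro e he
      rw [mem_insert] at he
      rcases he with rfl | he
      · exact ⟨by rwa [SimpleGraph.mem_edgeFinset, SimpleGraph.mem_edgeSet],
          notMem_red (Or.inr (Or.inr ⟨hx, hy⟩))⟩
      · exact hinc _ v (mem_singleton_self _) e he) (by simp) (hY1 v (by omega))
    rw [card_insert_of_notMem, card_inc, card_singleton] at this
    · omega
    · intro h
      obtain ⟨w, hw, -⟩ := inc_mem h
      rw [Sym2.eq_iff] at hw
      rcases hw with ⟨h1, -⟩ | ⟨-, h1⟩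
      · exact hxv h1
      · exact hyv h1
  -- there is a vertex of degree three
  obtain ⟨v, hv⟩ : ∃ v, G.degree v = 3 := by
    by_contra hcon
    push Not at hcon
    apply hG
    refine ⟨∅, fun v _ => ?_, by simp⟩
    have h1 := hcon v
    have h2 := hb v
    have h3 := r_le (G := G) ∅ v
    omega
  by_cases hV3 : ∃ v x, G.degree v = 3 ∧ G.degree x = 3 ∧ G.Adj v x
  · clear hv v
    obtain ⟨v, x, hv, hx, hvx⟩ := hV3
    have htri : ∀ a b c, G.degree a = 3 → G.Adj a b → G.Adj a c → ¬ G.Adj b c := by
      intro a b c ha' hab hac hbc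
      refine hc a b c ha' hbc hab.ne' hac.ne' ?_ ?_
      · have h1 := r_lt (mem_singleton_self a) hab.symm
        have h2 := hb b
        omega
      · have h1 := r_lt (mem_singleton_self a) hac.symm
        have h2 := hb c
        omega
    -- neighbours of adjacent vertices of degree three have degree three
    have h33 : ∀ a b c, G.degree a = 3 → G.degree b = 3 → G.Adj a b → G.Adj b c → c ≠ a →
        G.degree c = 3 := by
      intro a b c ha' hb' hab hbc hca
      by_contra hcon
      have h0 := hb c
      refine hc a b c ha' hbc hab.ne' hca ?_ ?_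
      · have h1 := r_lt (mem_singleton_self a) hab.symm
        omega
      · have h1 := r_le (G := G) {a} c
        omega
    -- the other neighbours of `v`
    have hNv : #((G.neighborFinset v).erase x) = 2 := by
      rw [card_erase_of_mem (by rwa [SimpleGraph.mem_neighborFinset]),
        G.card_neighborFinset_eq_degree, hv]
    obtain ⟨p, q, hpq, hNv'⟩ := card_eq_two.mp hNv
    have hp : G.Adj v p ∧ p ≠ x := by
      have : p ∈ (G.neighborFinset v).erase x := by rw [hNv']; simp
      rw [mem_erase, SimpleGraph.mem_neighborFinset] at this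
      exact ⟨this.2, this.1⟩
    have hq : G.Adj v q ∧ q ≠ x := by
      have : q ∈ (G.neighborFinset v).erase x := by rw [hNv']; simp
      rw [mem_erase, SimpleGraph.mem_neighborFinset] at this
      exact ⟨this.2, this.1⟩
    have hNx : 0 < #((G.neighborFinset x).erase v) := by
      rw [card_erase_of_mem (by rw [SimpleGraph.mem_neighborFinset]; exact hvx.symm),
        G.card_neighborFinset_eq_degree, hx]
      norm_num
    obtain ⟨y, hy⟩ := card_pos.mp hNx
    rw [mem_erase, SimpleGraph.mem_neighborFinset] at hy
    obtain ⟨hyv, hxy⟩ := hy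
    have hvy : ¬ G.Adj v y := fun h => htri x v y hx hvx.symm hxy h
    have hpd : G.degree p = 3 := h33 x v p hx hv hvx.symm hp.1 hp.2
    have hqd : G.degree q = 3 := h33 x v q hx hv hvx.symm hq.1 hq.2
    have hyd : G.degree y = 3 := h33 v x y hv hx hvx hxy hyv
    have hpy : p ≠ y := by rintro rfl; exact hvy hp.1
    have hqy : q ≠ y := by rintro rfl; exact hvy hq.1
    -- two deletions
    have hD : ∀ a, G.Adj v a → a ≠ x → G.degree a = 3 → a ≠ y → ¬ G.Adj a y → False := by
      intro a hva hax had hay hna
      have hv2 : r G {a, y} v ≤ 2 := by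
        have := r_lt (D := {a, y}) (mem_insert_self a {y}) hva
        omega
      have hx2 : r G {a, y} x ≤ 2 := by
        have := r_lt (D := {a, y}) (mem_insert_of_mem (mem_singleton_self y)) hxy
        omega
      have hdisj : Disjoint (G.incidenceFinset a) (G.incidenceFinset y) := by
        rw [disjoint_iff_inter_eq_empty, ← subset_empty]
        intro e he
        have h1 := inc_inter hay he
        rw [mem_singleton] at h1
        subst h1
        have h2 := (mem_inter.mp he).1
        rw [SimpleGraph.mem_incidenceFinset] at h2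
        exact absurd h2.1 hna
      have hnot : s(v, x) ∉ G.incidenceFinset a ∪ G.incidenceFinset y := by
        rw [mem_union, SimpleGraph.mem_incidenceFinset, SimpleGraph.mem_incidenceFinset]
        rintro (⟨-, h⟩ | ⟨-, h⟩)
        · rw [Sym2.mem_iff] at h
          rcases h with h | h
          · exact hva.ne h.symm
          · exact hax h
        · rw [Sym2.mem_iff] at h
          rcases h with h | h
          · exact hyv h
          · exact hxy.ne h.symm
      have := st {a, y} (insert s(v, x) (G.incidenceFinset a ∪ G.incidenceFinset y)) {a, y} (by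
        intro e he
        rw [mem_insert, mem_union] at he
        rcases he with rfl | he | he
        · exact ⟨by rwa [SimpleGraph.mem_edgeFinset, SimpleGraph.mem_edgeSet],
            notMem_red (Or.inr (Or.inr ⟨hv2, hx2⟩))⟩
        · exact hinc _ a (by simp) e he
        · exact hinc _ y (by simp) e he) (by simp) (by
        intro u hu
        refine ⟨?_, notMem_act_red hu⟩
        rw [mem_insert, mem_singleton] at hu
        rcases hu with rfl | rfl
        · exact mem_act hva.symm
        · exact mem_act hxy.symm)
      rw [card_insert_of_notMem hnot, card_union_of_disjoint hdisj, card_inc, card_inc,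
        card_pair hay, had, hyd] at this
      omega
    by_cases h1 : G.Adj p y
    · by_cases h2 : G.Adj q y
      · have hv2 : r G {p, y} v ≤ 2 := by
          have := r_lt (D := {p, y}) (mem_insert_self p {y}) hp.1
          omega
        have hx2 : r G {p, y} x ≤ 2 := by
          have := r_lt (D := {p, y}) (mem_insert_of_mem (mem_singleton_self y)) hxy
          omega
        have hq2 : r G {p, y} q ≤ 2 := by
          have := r_lt (D := {p, y}) (mem_insert_of_mem (mem_singleton_self y)) h2
          omega
        have hcard : 5 ≤ #(G.incidenceFinset p ∪ G.incidenceFinset y) := by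
          have h3 := card_union_add_card_inter (G.incidenceFinset p) (G.incidenceFinset y)
          have h4 := card_le_card (inc_inter (G := G) hpy)
          rw [card_singleton] at h4
          rw [card_inc, card_inc] at h3
          omega
        have hnot : ∀ z, G.Adj v z → z ≠ p → s(v, z) ∉ G.incidenceFinset p ∪
            G.incidenceFinset y := by
          intro z hvz hzp
          rw [mem_union, SimpleGraph.mem_incidenceFinset, SimpleGraph.mem_incidenceFinset]
          rintro (⟨-, h⟩ | ⟨-, h⟩)
          · rw [Sym2.mem_iff] at h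
            rcases h with h | h
            · exact hp.1.ne h.symm
            · exact hzp h.symm
          · rw [Sym2.mem_iff] at h
            rcases h with h | h
            · exact hyv h
            · rw [← h] at hvz
              exact hvy hvz
        have hne : s(v, x) ≠ s(v, q) := by
          rw [Ne, Sym2.eq_iff]
          rintro (⟨-, h⟩ | ⟨h, h'⟩)
          · exact hq.2 h.symm
          · exact hvx.ne h'.symm
        have := st {p, y} (insert s(v, x) (insert s(v, q)
            (G.incidenceFinset p ∪ G.incidenceFinset y))) {p, y} (by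
          intro e he
          rw [mem_insert, mem_insert, mem_union] at he
          rcases he with rfl | rfl | he | he
          · exact ⟨by rwa [SimpleGraph.mem_edgeFinset, SimpleGraph.mem_edgeSet],
              notMem_red (Or.inr (Or.inr ⟨hv2, hx2⟩))⟩
          · exact ⟨by rw [SimpleGraph.mem_edgeFinset, SimpleGraph.mem_edgeSet]; exact hq.1,
              notMem_red (Or.inr (Or.inr ⟨hv2, hq2⟩))⟩
          · exact hinc _ p (by simp) e he
          · exact hinc _ y (by simp) e he) (by simp) (by
          intro u hu
          refine ⟨?_, notMem_act_red hu⟩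
          rw [mem_insert, mem_singleton] at hu
          rcases hu with rfl | rfl
          · exact mem_act hp.1.symm
          · exact mem_act hxy.symm)
        rw [card_insert_of_notMem, card_insert_of_notMem (hnot q hq.1 hpq.symm),
          card_pair hpy] at this
        · omega
        · rw [mem_insert, not_or]
          exact ⟨hne, hnot x hvx hp.2.symm⟩
      · exact hD q hq.1 hq.2 hqd hqy h2
    · exact hD p hp.1 hp.2 hpd hpy h1
  · push Not at hV3
    have hlow : ∀ u w, G.degree u = 3 → G.Adj u w → G.degree w ≤ 2 := by
      intro u w hu huw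
      have h1 := hV3 u w hu
      have h2 := hb w
      by_contra h3
      exact h1 (by omega) huw
    by_cases h2 : ∃ a, G.Adj v a ∧ G.degree a = 2
    · obtain ⟨a, hva, had⟩ := h2
      have hv2 : r G {a} v ≤ 2 := by
        have := r_lt (mem_singleton_self a) hva
        omega
      have hcard : 4 ≤ #(G.incidenceFinset a ∪ G.incidenceFinset v) := by
        have h3 := card_union_add_card_inter (G.incidenceFinset a) (G.incidenceFinset v)
        have h4 := card_le_card (inc_inter (G := G) hva.ne')
        rw [card_singleton] at h4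
        rw [card_inc, card_inc] at h3
        omega
      have := st {a} (G.incidenceFinset a ∪ G.incidenceFinset v) {a} (by
        intro e he
        rw [mem_union] at he
        rcases he with he | he
        · exact hinc _ a (by simp) e he
        · obtain ⟨w, rfl, hw⟩ := inc_mem he
          refine ⟨by rwa [SimpleGraph.mem_edgeFinset, SimpleGraph.mem_edgeSet], notMem_red ?_⟩
          exact Or.inr (Or.inr ⟨hv2, (r_le _ _).trans (hlow v w hv hw)⟩)) (by omega)
        (hY1 a (by omega))
      rw [card_singleton] at this
      omega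
    · push Not at h2
      have h1 : ∀ a, G.Adj v a → G.degree a = 1 := by
        intro a hva
        have h3 := hlow v a hv hva
        have h4 := h2 a hva
        have h5 : 0 < G.degree a := by
          rw [← G.card_neighborFinset_eq_degree, card_pos]
          exact ⟨v, by rw [SimpleGraph.mem_neighborFinset]; exact hva.symm⟩
        omega
      have := st {v} (G.incidenceFinset v) (insert v (G.neighborFinset v))
        (hinc _ v (mem_singleton_self _)) (by rw [card_inc]; omega) (by
        intro u hu
        rw [mem_insert, SimpleGraph.mem_neighborFinset] at hu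
        rcases hu with rfl | hu
        · exact hY1 u (by omega) u (mem_singleton_self _)
        · refine ⟨mem_act hu.symm, ?_⟩
          unfold act
          rw [mem_filter]
          rintro ⟨-, w, hw, -, hwv, -⟩
          have h3 := h1 u hu
          rw [← G.card_neighborFinset_eq_degree, card_eq_one] at h3
          obtain ⟨z, hz⟩ := h3
          have h4 : v ∈ G.neighborFinset u := by
            rw [SimpleGraph.mem_neighborFinset]; exact hu.symm
          have h5 : w ∈ G.neighborFinset u := by
            rw [SimpleGraph.mem_neighborFinset]; exact hw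
          rw [hz, mem_singleton] at h4 h5
          exact hwv (by rw [h5, h4]; exact mem_singleton_self _))
      rw [card_insert_of_notMem (by simp), card_inc, G.card_neighborFinset_eq_degree, hv,
        card_singleton] at this
      omega

end main

theorem alpha_ge {n : ℕ} (G : SimpleGraph (Fin n)) (D : Finset (Fin n)) (hD : Good G D) :
    n ≤ alpha 2 G + #D := by
  have h1 : #Dᶜ ≤ alpha 2 G := by
    unfold alpha
    apply le_sup (f := card)
    rw [mem_filter]
    refine ⟨mem_univ _, fun v hv => ?_⟩
    have h2 := hD v (mem_compl.mp hv)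
    refine le_trans (card_le_card ?_) h2
    intro w hw
    simp only [mem_filter, mem_compl, mem_univ, true_and] at hw ⊢
    exact ⟨hw.2, hw.1⟩
  have h3 := card_compl_add_card D
  rw [Fintype.card_fin] at h3
  omega

/-- `f(2, 2) ≥ 15/22 > 2/3`, so the lower bound `(2k+2-d)/(2k+2)` is not sharp for
`(k, d) = (2, 2)`. -/
theorem result : (15 : ℝ) / 22 ≤ f 2 2 ∧
    (2 * (2 : ℝ) + 2 - 2) / (2 * 2 + 2) < f 2 2 ∧
    ¬ ∀ k d : ℕ, 2 ≤ d → d ≤ k → f k d = (2 * (k : ℝ) + 2 - d) / (2 * k + 2) := by
  have h1 : (15 : ℝ) / 22 ≤ f 2 2 := by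
    apply le_csInf
    · refine ⟨_, 1, le_refl 1, ⊥, ?_, rfl⟩
      simp [avgDeg]
    · rintro x ⟨n, hn, G, hd, rfl⟩
      obtain ⟨D, hD, hcard⟩ := main #G.edgeFinset G rfl
      have h2 := alpha_ge G D hD
      have hn' : (0 : ℝ) < n := by exact_mod_cast hn
      have h3 : #(act G) ≤ n := by
        have := card_le_univ (act G)
        rwa [Fintype.card_fin] at this
      have h4 : (∑ v, (G.degree v : ℝ)) = 2 * #G.edgeFinset := by
        exact_mod_cast G.sum_degrees_eq_twice_card_edges
      unfold avgDeg at hd
      rw [h4, div_le_iff₀ hn'] at hd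
      have h5 : #G.edgeFinset ≤ n := by
        have : (#G.edgeFinset : ℝ) ≤ n := by push_cast at hd; linarith
        exact_mod_cast this
      have h6 : 15 * n ≤ 22 * alpha 2 G := by omega
      rw [div_le_div_iff₀ (by norm_num) hn']
      have h7 : (15 * n : ℝ) ≤ 22 * alpha 2 G := by exact_mod_cast h6
      linarith
  refine ⟨h1, by norm_num; linarith, fun h => ?_⟩
  have h2 := h 2 2 (le_refl 2) (le_refl 2)
  rw [h2] at h1
  norm_num at h1

end Pool.Agent.Results.MP_10f18b_co.RatioTwoTwo
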